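import Pool.Agent.L5helper6.CZ.Step
import Pool.Agent.Y703.QT12
import Pool.Agent.Y19.QT.ZD3

/-!
# The number of twists with many zeros near the central point (after `Pool.Agent.Y703.QT12`)
-/

set_option autoImplicit false

namespace Pool.Agent.L5helper6.CZ

open Complex MeasureTheory Filter Topology Set
open Pool.Agent.Y19.QT Pool.Agent.Y703.QT8 Pool.Agent.Y703.QT12
open Pool.Agent.Y180.QT12b2 (Ep cx Ep_bound Ep_diff Lq_eq lj_le)
open Pool.Agent.Y180.QT12d1 (Sq pt measurableSet_Sq continuous_pt)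
open scoped ENNReal ComplexConjugate

/-- `f` has at least `r` zeros, with multiplicities, in the disc of radius `η` around `1/2` -/
def Cert (f : ℂ → ℂ) (η : ℝ) (r : ℕ) : Prop :=
  ∃ (s : Finset ℂ) (m : ℂ → ℕ), (∀ ρ ∈ s, ‖ρ - 1 / 2‖ ≤ η ∧ (m ρ : ℕ∞) ≤ analyticOrderAt f ρ) ∧
    r ≤ ∑ ρ ∈ s, m ρ

theorem Cert.mono {f : ℂ → ℂ} {η : ℝ} {r r' : ℕ} (h : Cert f η r) (hr : r' ≤ r) : Cert f η r' := by
  obtain ⟨s, m, h1, h2⟩ := h
  exact ⟨s, m, h1, hr.trans h2⟩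

theorem Cert.zero (f : ℂ → ℂ) (η : ℝ) : Cert f η 0 := ⟨∅, 0, by simp, by simp⟩

variable {Q : ℕ} {lam : ℕ → ℝ} (T : Twists Q lam)

/-- the set of `d` with at least `r` zeros near `1/2` -/
noncomputable def SG (X r : ℕ) (η : ℝ) : Finset ℤ := by
  classical
  exact (sqf X).filter (fun d => Cert (T.ell d) η r)

lemma mem_SG {X r : ℕ} {η : ℝ} {d : ℤ} :
    d ∈ SG T X r η ↔ d ∈ sqf X ∧ Cert (T.ell d) η r := by
  unfold SG
  simp

lemma SG_sub (X r : ℕ) (η : ℝ) : SG T X r η ⊆ sqf X := fun _ hd => (mem_SG T |>.1 hd).1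

lemma Lq_order_at {d : ℤ} (hd : Squarefree d) {r : ℕ} {ρ : ℂ} (hρ : 1 / 4 < ρ.re)
    (hr : (r : ℕ∞) ≤ analyticOrderAt (T.ell d) ρ) :
    (r : ℕ∞) ≤ analyticOrderAt (T.Lq d) ρ := by
  have hmem : {s : ℂ | 1 / 4 < s.re} ∈ 𝓝 ρ :=
    (isOpen_lt continuous_const continuous_re).mem_nhds hρ
  have h1 : AnalyticAt ℂ (T.ell d) ρ := (T8a T d hd).1.analyticAt _
  have h2 : AnalyticAt ℂ (Ep T d) ρ := (Ep_diff T hd).analyticAt hmem
  have e : T.Lq d = T.ell d * Ep T d := rfl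
  rw [e, analyticOrderAt_mul h1 h2]
  exact hr.trans le_self_add

lemma re_gt {ρ : ℂ} {η : ℝ} (h : ‖ρ - 1 / 2‖ ≤ η) (hη : η < 1 / 4) : 1 / 4 < ρ.re := by
  have h3 := (Complex.abs_re_le_norm (ρ - 1 / 2)).trans h
  have h4 : (ρ - 1 / 2).re = ρ.re - 1 / 2 := by simp
  rw [h4] at h3
  have := (abs_le.1 h3).1
  linarith

/-- the first sum -/
theorem sum_vv : ∃ (C : ℝ) (A : ℕ), 0 < C ∧ ∀ (X Y r : ℕ) (δ η : ℝ), 3 ≤ X → 1 ≤ Y →
    (Y : ℝ) ^ 4 ≤ X → 1 / Real.log X ≤ 9 * δ → δ ≤ 1 / 100 → η ≤ δ / 25 →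
    δ ^ 2 * (19 / 5) ^ r * ∑ d ∈ SG T X r η, ‖vv T Y δ d‖ ≤
      C * (X : ℝ) ^ (1 + 32 * δ) * Real.log X ^ A := by
  obtain ⟨C1, A1, hC1, h1⟩ := mean_Sq T
  obtain ⟨C2, A2, hC2, h2⟩ := mean_Mol T.hecke
  refine ⟨C1 + C2, A1 + A2, by positivity, fun X Y r δ η hX hY hYX hδ1 hδ2 hη => ?_⟩
  have hX0 : (0 : ℝ) < X := by exact_mod_cast (by omega : 0 < X)
  have hX1 : (1 : ℝ) ≤ X := by exact_mod_cast (by omega : 1 ≤ X)
  have hL := log_ge_one hX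
  have hY1 : (1 : ℝ) ≤ Y := by exact_mod_cast hY
  have hδ : 0 < δ := by
    have : 0 < 1 / Real.log X := by positivity
    linarith
  have hpi := Real.pi_gt_three
  have hYX1 : (Y : ℝ) ≤ X := by
    calc (Y : ℝ) ≤ (Y : ℝ) ^ 4 := le_self_pow₀ hY1 (by norm_num)
      _ ≤ X := hYX
  have key : ∀ d ∈ SG T X r η, ENNReal.ofReal (3 * δ * (5 * δ)) * (ENNReal.ofReal (2 * Real.pi) *
      ENNReal.ofReal ((19 / 5) ^ r * ‖vv T Y δ d‖)) ≤
      (∫⁻ p in Sq δ, ‖T.Lq d (pt δ p)‖ₑ ^ 2) + ∫⁻ p in Sq δ, ‖Mol Q lam Y d (pt δ p)‖ₑ ^ 2 := by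
    intro d hd
    obtain ⟨hd1, s, m, hs, hsr⟩ := (mem_SG T).1 hd
    have hdiff : DifferentiableOn ℂ (T.Lq d) (Metric.ball (1 / 2) (20 * δ)) := by
      refine (Lq_diff T (sqf_sqf hd1)).mono fun s hs => ?_
      rw [Metric.mem_ball, dist_eq_norm] at hs
      exact re_gt hs.le (by linarith)
    have h5 := stepC (M := fun s => Mol Q lam Y d s) (L := T.Lq d) (s := s) (m := m) hδ hη hdiff
      (mol_diff Y d).differentiableOn (fun ρ hρ => ⟨(hs ρ hρ).1,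
        Lq_order_at T (sqf_sqf hd1) (re_gt (hs ρ hρ).1 (by linarith)) (hs ρ hρ).2⟩)
    have hm : Measurable fun p : ℝ × ℝ => ‖Mol Q lam Y d (pt δ p)‖ₑ ^ 2 :=
      (((mol_cont Y d).comp (continuous_pt δ)).enorm.measurable).pow_const 2
    have h6 : ENNReal.ofReal ((19 / 5) ^ r * ‖vv T Y δ d‖) ≤
        ENNReal.ofReal ((19 / 5) ^ (∑ ρ ∈ s, m ρ) * ‖T.Lq d (1 / 2 + δ) *
          (fun s => Mol Q lam Y d s) (1 / 2 + δ)‖) := by
      apply ENNReal.ofReal_le_ofReal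
      apply mul_le_mul_of_nonneg_right _ (norm_nonneg _)
      exact pow_le_pow_right₀ (by norm_num) hsr
    rw [← lintegral_add_right _ hm]
    refine le_trans ?_ (h5.trans (lintegral_mono fun p => ?_))
    · gcongr
    rcases le_total ‖T.Lq d (pt δ p)‖ₑ ‖Mol Q lam Y d (pt δ p)‖ₑ with h | h
    · calc ‖T.Lq d (pt δ p)‖ₑ * ‖Mol Q lam Y d (pt δ p)‖ₑ
          ≤ ‖Mol Q lam Y d (pt δ p)‖ₑ * ‖Mol Q lam Y d (pt δ p)‖ₑ := by gcongr
        _ = ‖Mol Q lam Y d (pt δ p)‖ₑ ^ 2 := (sq _).symm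
        _ ≤ _ := le_add_self
    · calc ‖T.Lq d (pt δ p)‖ₑ * ‖Mol Q lam Y d (pt δ p)‖ₑ
          ≤ ‖T.Lq d (pt δ p)‖ₑ * ‖T.Lq d (pt δ p)‖ₑ := by gcongr
        _ = ‖T.Lq d (pt δ p)‖ₑ ^ 2 := (sq _).symm
        _ ≤ _ := le_self_add
  have hsum : ENNReal.ofReal (3 * δ * (5 * δ) * (2 * Real.pi) *
      ((19 / 5) ^ r * ∑ d ∈ SG T X r η, ‖vv T Y δ d‖)) ≤
      ENNReal.ofReal (C1 * (X : ℝ) ^ (1 + 32 * δ) * Real.log X ^ A1 +
        C2 * X * Real.log X ^ A2 * (Y : ℝ) ^ (14 * δ)) := by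
    rw [ENNReal.ofReal_mul (by positivity), ENNReal.ofReal_mul (by positivity), mul_assoc,
      Finset.mul_sum, ENNReal.ofReal_sum_of_nonneg (fun d _ => by positivity), Finset.mul_sum,
      Finset.mul_sum, ENNReal.ofReal_add (by positivity) (by positivity)]
    refine (Finset.sum_le_sum key).trans ?_
    rw [Finset.sum_add_distrib]
    refine add_le_add ?_ ?_
    · exact (Finset.sum_le_sum_of_subset (SG_sub T X r η)).trans (h1 X δ hX hδ1 hδ2)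
    · exact (Finset.sum_le_sum_of_subset (SG_sub T X r η)).trans (h2 X Y δ hX hY hYX hδ hδ2)
  have hreal := (ENNReal.ofReal_le_ofReal_iff (by positivity)).1 hsum
  have hV : 0 ≤ ∑ d ∈ SG T X r η, ‖vv T Y δ d‖ := Finset.sum_nonneg fun d _ => norm_nonneg _
  have e1 : (X : ℝ) * (Y : ℝ) ^ (14 * δ) ≤ (X : ℝ) ^ (1 + 32 * δ) := by
    rw [Real.rpow_add hX0, Real.rpow_one]
    gcongr
    calc (Y : ℝ) ^ (14 * δ) ≤ (X : ℝ) ^ (14 * δ) :=
          Real.rpow_le_rpow (by positivity) hYX1 (by positivity)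
      _ ≤ (X : ℝ) ^ (32 * δ) := Real.rpow_le_rpow_of_exponent_le hX1 (by linarith)
  have h8 : Real.log X ^ A1 ≤ Real.log X ^ (A1 + A2) := pow_le_pow_right₀ hL (by omega)
  have h9 : Real.log X ^ A2 ≤ Real.log X ^ (A1 + A2) := pow_le_pow_right₀ hL (by omega)
  calc δ ^ 2 * (19 / 5) ^ r * ∑ d ∈ SG T X r η, ‖vv T Y δ d‖
      ≤ 30 * Real.pi * (δ ^ 2 * (19 / 5) ^ r * ∑ d ∈ SG T X r η, ‖vv T Y δ d‖) := by
        have : 0 ≤ δ ^ 2 * (19 / 5) ^ r * ∑ d ∈ SG T X r η, ‖vv T Y δ d‖ := by positivity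
        nlinarith
    _ = 3 * δ * (5 * δ) * (2 * Real.pi) * ((19 / 5) ^ r * ∑ d ∈ SG T X r η, ‖vv T Y δ d‖) := by
        ring
    _ ≤ C1 * (X : ℝ) ^ (1 + 32 * δ) * Real.log X ^ A1 +
        C2 * X * Real.log X ^ A2 * (Y : ℝ) ^ (14 * δ) := hreal
    _ = C1 * (X : ℝ) ^ (1 + 32 * δ) * Real.log X ^ A1 +
        C2 * (X * (Y : ℝ) ^ (14 * δ)) * Real.log X ^ A2 := by ring
    _ ≤ C1 * (X : ℝ) ^ (1 + 32 * δ) * Real.log X ^ (A1 + A2) +
        C2 * (X : ℝ) ^ (1 + 32 * δ) * Real.log X ^ (A1 + A2) := by gcongr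
    _ = _ := by ring

/-- the trivial bound -/
theorem ord_bound : ∃ C : ℝ, 1 ≤ C ∧ ∀ (d : ℤ) (X : ℕ), Squarefree d → 3 ≤ X → |d| ≤ X →
    ∀ (r : ℕ) (η : ℝ), η ≤ 1 / 8 → Cert (T.ell d) η r → (r : ℝ) ≤ C * Real.log X := by
  obtain ⟨C, A, hC, h⟩ := T8d T
  have hc := c_pos T
  have hlog : 0 < Real.log (43 / 37) := Real.log_pos (by norm_num)
  refine ⟨max 1 ((|Real.log (2 * T.c * C)| + A) / Real.log (43 / 37)), le_max_left _ _,
    fun d X hd hX hdX r η hη hr => ?_⟩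
  have hd1 := one_le_abs hd
  have hX0 : (0 : ℝ) < X := by exact_mod_cast (by omega : 0 < X)
  have hdX' : |(d : ℝ)| ≤ X := by exact_mod_cast hdX
  have hL1 : 1 ≤ Real.log X := log_ge_one hX
  obtain ⟨s, m, hs, hsr⟩ := hr
  set N := ∑ ρ ∈ s, m ρ with hN
  obtain ⟨g, hg1, hg2⟩ := exists_quot_many isOpen_univ m s (T8a T d hd).1.differentiableOn
    (fun ρ hρ => ⟨mem_univ _, (hs ρ hρ).2⟩)
  have hg1' : Differentiable ℂ g := differentiableOn_univ.1 hg1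
  have hs' : ∀ ρ ∈ s, ‖ρ - 1 / 2‖ ≤ 1 / 8 := fun ρ hρ => (hs ρ hρ).1.trans hη
  have hmax : ‖g 5‖ ≤ C * |(d : ℝ)| ^ A / (43 / 8) ^ N := by
    refine Complex.norm_le_of_forall_mem_frontier_norm_le (U := Metric.ball (1 / 2 : ℂ) (11 / 2))
      Metric.isBounded_ball hg1'.diffContOnCl (fun z hz => ?_) ?_
    · rw [frontier_ball _ (by norm_num), mem_sphere_iff_norm] at hz
      have h1 := hg2 z (mem_univ _)
      have h2 := h d z hd (by
        calc ‖z‖ = ‖(z - 1 / 2) + 1 / 2‖ := by ring_nf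
          _ ≤ ‖z - 1 / 2‖ + ‖(1 / 2 : ℂ)‖ := norm_add_le _ _
          _ = 6 := by rw [hz]; norm_num)
      have h3 : (43 / 8 : ℝ) ^ N ≤ ‖PP s m z‖ :=
        PP_ge (c := 1 / 2) hs' (by norm_num) (by rw [hz]; norm_num)
      rw [h1, norm_mul] at h2
      rw [le_div_iff₀ (by positivity)]
      calc ‖g z‖ * (43 / 8) ^ N ≤ ‖g z‖ * ‖PP s m z‖ := by gcongr
        _ = ‖PP s m z‖ * ‖g z‖ := mul_comm _ _
        _ ≤ _ := h2
    · rw [closure_ball _ (by norm_num), Metric.mem_closedBall, dist_eq_norm]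
      norm_num
  have h5 : ‖T.ell d 5‖ ≤ (37 / 8) ^ N * ‖g 5‖ := by
    rw [hg2 5 (mem_univ _), norm_mul]
    have h6 := PP_le (m := m) (c := 1 / 2) (x := 9 / 2) (z := 5) hs' (by norm_num)
    rw [show (9 / 2 + 1 / 8 : ℝ) = 37 / 8 by norm_num, ← hN] at h6
    gcongr
  have h6 := (ell_five T hd).trans h5
  have h7 : (43 / 37 : ℝ) ^ N ≤ 2 * T.c * C * |(d : ℝ)| ^ A := by
    have e1 : (43 / 37 : ℝ) ^ N = (43 / 8) ^ N / (37 / 8) ^ N := by rw [← div_pow]; norm_num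
    rw [e1, div_le_iff₀ (by positivity)]
    have h8 : 1 / (2 * T.c) ≤ (37 / 8) ^ N * (C * |(d : ℝ)| ^ A / (43 / 8) ^ N) :=
      h6.trans (by gcongr)
    rw [div_le_iff₀ (by positivity)] at h8
    have h9 : (37 / 8 : ℝ) ^ N * (C * |(d : ℝ)| ^ A / (43 / 8) ^ N) * (2 * T.c) =
      (2 * T.c * C * |(d : ℝ)| ^ A * (37 / 8) ^ N) / (43 / 8) ^ N := by ring
    rw [h9, le_div_iff₀ (by positivity), one_mul] at h8
    exact h8
  have h8 : (N : ℝ) * Real.log (43 / 37) ≤ |Real.log (2 * T.c * C)| + A * Real.log X := by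
    have e := Real.log_le_log (by positivity) h7
    rw [Real.log_pow, Real.log_mul (by positivity) (by positivity), Real.log_pow] at e
    have e2 : Real.log |(d : ℝ)| ≤ Real.log X := Real.log_le_log (by linarith) hdX'
    have e3 := le_abs_self (Real.log (2 * T.c * C))
    have e4 : (A : ℝ) * Real.log |(d : ℝ)| ≤ A * Real.log X := by gcongr
    linarith
  have hrN : (r : ℝ) ≤ N := by exact_mod_cast hsr
  calc (r : ℝ) ≤ (|Real.log (2 * T.c * C)| + A * Real.log X) / Real.log (43 / 37) := by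
        rw [le_div_iff₀ hlog]
        refine le_trans ?_ h8
        gcongr
    _ ≤ ((|Real.log (2 * T.c * C)| + A) * Real.log X) / Real.log (43 / 37) := by
        gcongr
        have := abs_nonneg (Real.log (2 * T.c * C))
        nlinarith
    _ = (|Real.log (2 * T.c * C)| + A) / Real.log (43 / 37) * Real.log X := by ring
    _ ≤ _ := by gcongr; exact le_max_right _ _

end Pool.Agent.L5helper6.CZ
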