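import Pool.Agent.L5helper6.CZ.Main
import Pool.Agent.Y19.QT.ZD3

/-!
# The number of zeros near the central point: final form
-/

set_option autoImplicit false

namespace Pool.Agent.L5helper6.CZ

open Complex MeasureTheory Filter Topology Set
open Pool.Agent.Y19.QT Pool.Agent.Y703.QT8 Pool.Agent.Y703.QT12
open scoped ENNReal ComplexConjugate

section

variable {Q : ℕ} {lam : ℕ → ℝ}

theorem order_eq (T : Twists Q lam) {d : ℤ} (hd : Squarefree d) {s : ℂ} (hs : 1 / 4 < s.re) :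
    analyticOrderAt (T.Lq d) s = analyticOrderAt (T.ell d) s := by
  have hmem : {s : ℂ | 1 / 4 < s.re} ∈ 𝓝 s :=
    (isOpen_lt continuous_const continuous_re).mem_nhds hs
  have h1 : AnalyticAt ℂ (T.ell d) s := (T8a T d hd).1.analyticAt _
  have h2 : AnalyticAt ℂ (Pool.Agent.Y180.QT12b2.Ep T d) s :=
    (Pool.Agent.Y180.QT12b2.Ep_diff T hd).analyticAt hmem
  have e : T.Lq d = T.ell d * Pool.Agent.Y180.QT12b2.Ep T d := rfl
  rw [e, analyticOrderAt_mul h1 h2, h2.analyticOrderAt_eq_zero.2 (Ep_ne T hd hs.le), add_zero]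

theorem zdisc_le (a b : ℤ) (hab : 4 * a ^ 3 + 27 * b ^ 2 ≠ 0) (T : Twists Q lam)
    (hQ : ∀ p : ℕ, p.Prime → (p : ℤ) ∣ 2 * (4 * a ^ 3 + 27 * b ^ 2) → p ∣ Q)
    (hlam : ∀ p : ℕ, p.Prime → ¬ p ∣ Q → lam p = ap a b p / Real.sqrt p)
    (d : ℤ) (hd : Squarefree d) (F : ℂ → ℂ) (hF : IsLFun (a * d ^ 2) (b * d ^ 3) F)
    {η : ℝ} (hη : η ≤ 1 / 8) {n : ℕ} (hn : ∀ r : ℕ, Cert (T.ell d) η r → r ≤ n) :
    zdisc F η ≤ n := by
  classical
  have hord : ∀ s : ℂ, ‖s - 1 / 2‖ ≤ η →
      analyticOrderAt F (s + 1 / 2) = analyticOrderAt (T.ell d) s := by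
    intro s hs
    have h1 := re_gt hs (by linarith)
    rw [Pool.Agent.Y203.QTZ5.Z5 a b hab Q lam T hQ hlam d hd F hF s h1, order_eq T hd h1]
  have hfin : ∀ s : ℂ, ‖s - 1 / 2‖ ≤ η → analyticOrderAt (T.ell d) s ≠ ⊤ := by
    intro s hs htop
    have h1 := hn (n + 1) ⟨{s}, fun _ => n + 1, fun ρ hρ => by
      rw [Finset.mem_singleton] at hρ
      subst hρ
      exact ⟨hs, by rw [htop]; exact le_top⟩, by simp⟩
    omega
  unfold zdisc
  rw [← (Equiv.addRight (1 / 2 : ℂ)).tsum_eq, ENNReal.tsum_eq_iSup_sum]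
  refine iSup_le fun s => ?_
  set s' : Finset ℂ := s.filter (fun ρ => ‖ρ - 1 / 2‖ ≤ η) with hs'
  have h1 := hn (∑ ρ ∈ s', (analyticOrderAt (T.ell d) ρ).toNat)
    ⟨s', fun ρ => (analyticOrderAt (T.ell d) ρ).toNat, fun ρ hρ => by
      have h2 := (Finset.mem_filter.1 hρ).2
      exact ⟨h2, le_of_eq (ENat.coe_toNat (hfin ρ h2))⟩, le_rfl⟩
  calc _ ≤ ∑ ρ ∈ s, (if ‖ρ - 1 / 2‖ ≤ η then
        (((analyticOrderAt (T.ell d) ρ).toNat : ℕ) : ℝ≥0∞) else 0) := by
        refine Finset.sum_le_sum fun ρ _ => ?_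
        have e1 : (Equiv.addRight (1 / 2 : ℂ)) ρ = ρ + 1 / 2 := rfl
        rw [e1]
        have e2 : (ρ + 1 / 2 - 1 : ℂ) = ρ - 1 / 2 := by ring
        rw [e2]
        by_cases h2 : ‖ρ - 1 / 2‖ ≤ η
        · rw [if_pos h2]
          split_ifs
          · rw [hord ρ h2]
            conv_lhs => rw [← ENat.coe_toNat (hfin ρ h2)]
            exact (ENat.toENNReal_coe _).le
          · exact bot_le
        · rw [if_neg (fun h => h2 h.2), if_neg h2]
    _ = ((∑ ρ ∈ s', (analyticOrderAt (T.ell d) ρ).toNat : ℕ) : ℝ≥0∞) := by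
        rw [hs', ← Finset.sum_filter]
        push_cast
        rfl
    _ ≤ n := by exact_mod_cast h1

end

/-- moments from an exponential moment, at one place `X` -/
theorem moments_one {C c : ℝ} {A : ℕ} (hc : 0 < c) (k B : ℕ) :
    ∃ C' : ℝ, ∀ (X : ℕ) (M : ℝ) (x : ℤ → ℝ) (S : Finset ℤ), 3 ≤ X → 0 ≤ M → (∀ d ∈ sqf X, 0 ≤ x d) →
      ∑ d ∈ sqf X, Real.exp (c * x d) ≤ C * X * Real.exp M * Real.log X ^ A → S ⊆ sqf X →
      ∑ d ∈ S, x d ^ k ≤
        C' * (S.card + X / Real.log X ^ B) * (1 + Real.log (Real.log X) + M) ^ k := by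
  refine ⟨max ((2 * (A + B + 1 : ℕ) / c) ^ k) ((k.factorial * (2 / c) ^ k) * |C|),
    fun X M x S hX hM hx0 h hS => ?_⟩
  have hl := one_le_log hX
  have hl0 : 0 < Real.log X := by linarith
  have hll : 0 ≤ Real.log (Real.log X) := Real.log_nonneg hl
  have hX0 : (0 : ℝ) ≤ X := Nat.cast_nonneg X
  set L : ℝ := Real.log (Real.log X) with hL
  set W : ℝ := Real.exp M * Real.log X ^ (A + B) with hW
  have hW0 : 0 < W := by positivity
  have hpt : ∀ d ∈ S, x d ^ k ≤ (2 * (A + B + 1 : ℕ) / c * (L + M)) ^ k +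
      (k.factorial * (2 / c) ^ k) * (Real.exp (c * x d) / W) := by
    intro d hd
    have hx0 : (0 : ℝ) ≤ x d := hx0 d (hS hd)
    have hE : (0 : ℝ) < Real.exp (c * x d) / W := by positivity
    by_cases hx : x d ≤ 2 * (A + B + 1 : ℕ) / c * (L + M)
    · have h1 := pow_le_pow_left₀ hx0 hx k
      have : 0 ≤ (k.factorial * (2 / c) ^ k) * (Real.exp (c * x d) / W) := by positivity
      linarith
    · push Not at hx
      have h1 : x d ^ k ≤ (k.factorial * (2 / c) ^ k) * Real.exp (c / 2 * x d) := by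
        have h2 := Real.pow_div_factorial_le_exp (c / 2 * x d) (by positivity) k
        rw [div_le_iff₀ (by positivity)] at h2
        have h3 : x d ^ k = (2 / c) ^ k * (c / 2 * x d) ^ k := by
          rw [← mul_pow]
          congr 1
          field_simp
        rw [h3]
        calc (2 / c) ^ k * (c / 2 * x d) ^ k ≤ (2 / c) ^ k * (Real.exp (c / 2 * x d) * k.factorial) :=
              mul_le_mul_of_nonneg_left h2 (by positivity)
          _ = _ := by ring
      have h2 : Real.exp (c / 2 * x d) ≤ Real.exp (c * x d) / W := by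
        rw [le_div_iff₀ hW0]
        have h3 : Real.log X ^ (A + B) = Real.exp ((A + B : ℕ) * L) := by
          rw [hL, Real.exp_nat_mul, Real.exp_log hl0]
        rw [hW, h3, ← Real.exp_add, ← Real.exp_add]
        apply Real.exp_le_exp.2
        have h4 : M + (A + B : ℕ) * L ≤ c / 2 * x d := by
          have h5 : 2 * (A + B + 1 : ℕ) / c * (L + M) * (c / 2) ≤ x d * (c / 2) :=
            mul_le_mul_of_nonneg_right hx.le (by positivity)
          have h6 : 2 * (A + B + 1 : ℕ) / c * (L + M) * (c / 2) = (A + B + 1 : ℕ) * (L + M) := by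
            field_simp
          have h7 : M + (A + B : ℕ) * L ≤ (A + B + 1 : ℕ) * (L + M) := by
            push_cast
            have : 0 ≤ ((A : ℝ) + B) * M := by positivity
            nlinarith
          linarith
        linarith
      have h3 := mul_le_mul_of_nonneg_left h2 (show (0 : ℝ) ≤ k.factorial * (2 / c) ^ k by positivity)
      have h4 : (0 : ℝ) ≤ (2 * (A + B + 1 : ℕ) / c * (L + M)) ^ k := by positivity
      linarith
  refine (Finset.sum_le_sum hpt).trans ?_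
  rw [Finset.sum_add_distrib, Finset.sum_const, nsmul_eq_mul, ← Finset.mul_sum, ← Finset.sum_div]
  have h0 : ∑ d ∈ S, Real.exp (c * x d) ≤ C * X * Real.exp M * Real.log X ^ A :=
    (Finset.sum_le_sum_of_subset_of_nonneg hS fun _ _ _ => (Real.exp_pos _).le).trans h
  have h1 : (∑ d ∈ S, Real.exp (c * x d)) / W ≤ |C| * (X / Real.log X ^ B) := by
    rw [div_le_iff₀ hW0]
    refine h0.trans ?_
    rw [hW, pow_add]
    have e1 : |C| * (X / Real.log X ^ B) * (Real.exp M * (Real.log X ^ A * Real.log X ^ B)) =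
        |C| * (X * Real.exp M * Real.log X ^ A) := by field_simp
    rw [e1]
    calc C * X * Real.exp M * Real.log X ^ A = C * (X * Real.exp M * Real.log X ^ A) := by ring
      _ ≤ _ := by gcongr; exact le_abs_self C
  have hLk : (L + M) ^ k ≤ (1 + L + M) ^ k := pow_le_pow_left₀ (by linarith) (by linarith) k
  have h1k : (1 : ℝ) ≤ (1 + L + M) ^ k := one_le_pow₀ (by linarith)
  have hXB : 0 ≤ X / Real.log X ^ B := by positivity
  have h2 : (S.card : ℝ) * (2 * (A + B + 1 : ℕ) / c * (L + M)) ^ k ≤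
      (2 * (A + B + 1 : ℕ) / c) ^ k * S.card * (1 + L + M) ^ k := by
    rw [mul_pow]
    calc (S.card : ℝ) * ((2 * (A + B + 1 : ℕ) / c) ^ k * (L + M) ^ k) =
          (2 * (A + B + 1 : ℕ) / c) ^ k * S.card * (L + M) ^ k := by ring
      _ ≤ _ := mul_le_mul_of_nonneg_left hLk (by positivity)
  have h3 : (k.factorial * (2 / c) ^ k) * ((∑ d ∈ S, Real.exp (c * x d)) / W) ≤
      (k.factorial * (2 / c) ^ k) * |C| * (X / Real.log X ^ B) * (1 + L + M) ^ k := by
    calc _ ≤ (k.factorial * (2 / c) ^ k) * (|C| * (X / Real.log X ^ B)) :=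
          mul_le_mul_of_nonneg_left h1 (by positivity)
      _ ≤ (k.factorial * (2 / c) ^ k) * (|C| * (X / Real.log X ^ B)) * (1 + L + M) ^ k :=
          le_mul_of_one_le_right (by positivity) h1k
      _ = _ := by ring
  have h4 : (2 * (A + B + 1 : ℕ) / c) ^ k * S.card * (1 + L + M) ^ k ≤
      max ((2 * (A + B + 1 : ℕ) / c) ^ k) ((k.factorial * (2 / c) ^ k) * |C|) * S.card *
        (1 + L + M) ^ k := by
    gcongr
    exact le_max_left _ _
  have h5 : (k.factorial * (2 / c) ^ k) * |C| * (X / Real.log X ^ B) * (1 + L + M) ^ k ≤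
      max ((2 * (A + B + 1 : ℕ) / c) ^ k) ((k.factorial * (2 / c) ^ k) * |C|) *
        (X / Real.log X ^ B) * (1 + L + M) ^ k := by
    gcongr
    exact le_max_right _ _
  calc _ ≤ _ := add_le_add (h2.trans h4) (h3.trans h5)
    _ = _ := by ring

end Pool.Agent.L5helper6.CZ
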