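import Pool.Agent.L5helper6.CZ.Fin
import Pool.Agent.Y19.QT.Fams

/-!
# Ranks and zeros near the central point in the families of quadratic twists
-/

set_option autoImplicit false

namespace Pool.Agent.L5helper6.CZ

open Complex MeasureTheory Filter Topology Set
open Pool.Agent.Y19.QT Pool.Agent.Y703.QT8 Pool.Agent.Y703.QT12
open scoped ENNReal ComplexConjugate

/-- rank of `E_d(ℚ)` plus the number of zeros of `F` near `1` -/
noncomputable def rz (a b : ℤ) (F : ℤ → ℂ → ℂ) (η : ℝ) (d : ℤ) : ℝ :=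
  Module.finrank ℤ (EQ (a * d ^ 2) (b * d ^ 3)) + (zdisc (F d) η).toReal

theorem exp_law {a b : ℤ} (hab : 4 * a ^ 3 + 27 * b ^ 2 ≠ 0) (h : HasTwists a b) :
    ∃ (C c : ℝ) (A : ℕ), 0 < C ∧ 0 < c ∧ ∀ F : ℤ → ℂ → ℂ,
      (∀ d : ℤ, Squarefree d → IsLFun (a * d ^ 2) (b * d ^ 3) (F d)) →
      ∀ (X : ℕ) (η : ℝ), 3 ≤ X → 0 ≤ η → η ≤ 1 / 8 →
        (∀ d ∈ sqf X, zdisc (F d) η ≠ ⊤) ∧
        ∑ d ∈ sqf X, Real.exp (c * rz a b F η d) ≤
          C * X * Real.exp (7 * η * Real.log X) * Real.log X ^ A := by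
  obtain ⟨Q, lam, ⟨T⟩, hQ, hlam⟩ := h
  obtain ⟨C, c, A, hC, hc, hmom⟩ := expZ T
  obtain ⟨B, hB⟩ := Pool.Agent.Y155.QT14.T14 a b hab
  set c1 : ℝ := min (c / 2) (Real.log 2 / 24) with hc1
  have hc1p : 0 < c1 := lt_min (by positivity) (by have := Real.log_pos one_lt_two; positivity)
  have hc1a : 2 * c1 ≤ c := by have := min_le_left (c / 2) (Real.log 2 / 24); linarith
  have hc1b : 24 * c1 ≤ Real.log 2 := by have := min_le_right (c / 2) (Real.log 2 / 24); linarith
  refine ⟨Real.exp (2 * c1 * B) * 8 + C, c1, A + 1, by positivity, hc1p, fun F hF X η hX hη hη8 => ?_⟩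
  obtain ⟨n, hn, hsum⟩ := hmom X η hX hη hη8
  have hz : ∀ d ∈ sqf X, zdisc (F d) η ≤ n d := fun d hd =>
    zdisc_le a b hab T hQ hlam d (mem_sqf.1 hd).2 (F d) (hF d (mem_sqf.1 hd).2) hη8 (hn d hd)
  refine ⟨fun d hd => ne_top_of_le_ne_top (ENNReal.natCast_ne_top _) (hz d hd), ?_⟩
  have hl := one_le_log hX
  have hX0 : (0 : ℝ) ≤ X := Nat.cast_nonneg X
  have hM : 1 ≤ Real.exp (7 * η * Real.log X) := by
    rw [Real.one_le_exp_iff]
    positivity
  set M := Real.exp (7 * η * Real.log X) with hMdef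
  have hpt : ∀ d ∈ sqf X, Real.exp (c1 * rz a b F η d) ≤
      Real.exp (2 * c1 * B) * (2 : ℝ) ^ d.natAbs.primeFactors.card + Real.exp (c * n d) := by
    intro d hd
    have hsq : Squarefree d := (mem_sqf.1 hd).2
    have hzn : (zdisc (F d) η).toReal ≤ n d := by
      have := ENNReal.toReal_mono (ENNReal.natCast_ne_top _) (hz d hd)
      simpa using this
    unfold rz
    set o : ℝ := ((n d : ℕ) : ℝ) with ho
    set r : ℝ := (Module.finrank ℤ (EQ (a * d ^ 2) (b * d ^ 3)) : ℝ) with hr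
    have ho0 : 0 ≤ o := Nat.cast_nonneg _
    have hr0 : 0 ≤ r := Nat.cast_nonneg _
    have hrB : r ≤ B + 12 * d.natAbs.primeFactors.card := by
      have := hB d hsq.ne_zero
      rw [hr]; exact_mod_cast this
    have h1 : Real.exp (2 * c1 * r) ≤
        Real.exp (2 * c1 * B) * (2 : ℝ) ^ d.natAbs.primeFactors.card := by
      have e1 : (2 : ℝ) ^ d.natAbs.primeFactors.card =
          Real.exp (Real.log 2 * d.natAbs.primeFactors.card) := by
        rw [mul_comm, Real.exp_nat_mul, Real.exp_log two_pos]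
      rw [e1, ← Real.exp_add]
      apply Real.exp_le_exp.2
      have hw : (0 : ℝ) ≤ d.natAbs.primeFactors.card := Nat.cast_nonneg _
      have h2 : 2 * c1 * r ≤ 2 * c1 * (B + 12 * d.natAbs.primeFactors.card) :=
        mul_le_mul_of_nonneg_left hrB (by positivity)
      have h3 : 24 * c1 * d.natAbs.primeFactors.card ≤
          Real.log 2 * d.natAbs.primeFactors.card := mul_le_mul_of_nonneg_right hc1b hw
      linarith
    have h2 : Real.exp (2 * c1 * o) ≤ Real.exp (c * o) := by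
      apply Real.exp_le_exp.2
      exact mul_le_mul_of_nonneg_right hc1a ho0
    have h0 : Real.exp (c1 * (r + (zdisc (F d) η).toReal)) ≤ Real.exp (c1 * (r + o)) := by
      apply Real.exp_le_exp.2
      gcongr
    have h3 : Real.exp (c1 * (r + o)) ≤ Real.exp (2 * c1 * r) + Real.exp (2 * c1 * o) := by
      rcases le_total r o with h | h
      · have : Real.exp (c1 * (r + o)) ≤ Real.exp (2 * c1 * o) := by
          apply Real.exp_le_exp.2
          nlinarith
        have := Real.exp_pos (2 * c1 * r)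
        linarith
      · have : Real.exp (c1 * (r + o)) ≤ Real.exp (2 * c1 * r) := by
          apply Real.exp_le_exp.2
          nlinarith
        have := Real.exp_pos (2 * c1 * o)
        linarith
    linarith
  refine (Finset.sum_le_sum hpt).trans ?_
  rw [Finset.sum_add_distrib, ← Finset.mul_sum]
  have h4 := Pool.Agent.Y496.QT.T15 X hX
  have e0 := Real.exp_pos (2 * c1 * B)
  have hpA : (1 : ℝ) ≤ Real.log X ^ A := one_le_pow₀ hl
  have h6 : Real.exp (2 * c1 * B) * ∑ d ∈ sqf X, (2 : ℝ) ^ d.natAbs.primeFactors.card ≤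
      Real.exp (2 * c1 * B) * 8 * X * M * Real.log X ^ (A + 1) := by
    have h7 : 4 * X * (1 + Real.log X) ≤ 8 * X * Real.log X ^ (A + 1) := by
      have h8 : 1 + Real.log X ≤ 2 * Real.log X ^ (A + 1) := by
        rw [pow_succ]
        nlinarith
      nlinarith
    calc Real.exp (2 * c1 * B) * ∑ d ∈ sqf X, (2 : ℝ) ^ d.natAbs.primeFactors.card
        ≤ Real.exp (2 * c1 * B) * (8 * X * Real.log X ^ (A + 1)) * 1 := by
          rw [mul_one]
          exact mul_le_mul_of_nonneg_left (h4.trans h7) e0.le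
      _ ≤ Real.exp (2 * c1 * B) * (8 * X * Real.log X ^ (A + 1)) * M := by gcongr
      _ = _ := by ring
  have h7 : C * X * M * Real.log X ^ A ≤ C * X * M * Real.log X ^ (A + 1) := by
    apply mul_le_mul_of_nonneg_left _ (by positivity)
    exact pow_le_pow_right₀ hl (Nat.le_succ A)
  calc _ ≤ Real.exp (2 * c1 * B) * 8 * X * M * Real.log X ^ (A + 1) +
        C * X * M * Real.log X ^ (A + 1) := add_le_add h6 (hsum.trans h7)
    _ = _ := by ring

theorem moment_law {a b : ℤ} (hab : 4 * a ^ 3 + 27 * b ^ 2 ≠ 0) (h : HasTwists a b) (k B : ℕ) :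
    ∃ C : ℝ, ∀ F : ℤ → ℂ → ℂ,
      (∀ d : ℤ, Squarefree d → IsLFun (a * d ^ 2) (b * d ^ 3) (F d)) →
      ∀ (X : ℕ) (η : ℝ) (S : Finset ℤ), 3 ≤ X → 0 ≤ η → η ≤ 1 / 8 → S ⊆ sqf X →
        ∑ d ∈ S, rz a b F η d ^ k ≤ C * (S.card + X / Real.log X ^ B) *
          (1 + Real.log (Real.log X) + η * Real.log X) ^ k := by
  obtain ⟨C, c, A, hC, hc, hexp⟩ := exp_law hab h
  obtain ⟨C', hC'⟩ := moments_one (C := C) (A := A) hc k B
  refine ⟨|C'| * 7 ^ k, fun F hF X η S hX hη hη8 hS => ?_⟩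
  have hl := one_le_log hX
  have hll : 0 ≤ Real.log (Real.log X) := Real.log_nonneg hl
  have hηL : 0 ≤ η * Real.log X := by positivity
  have h1 := hC' X (7 * η * Real.log X) (rz a b F η) S hX (by positivity)
    (fun d _ => by unfold rz; positivity) (hexp F hF X η hX hη hη8).2 hS
  refine h1.trans ?_
  have h2 : (1 + Real.log (Real.log X) + 7 * η * Real.log X) ^ k ≤
      7 ^ k * (1 + Real.log (Real.log X) + η * Real.log X) ^ k := by
    rw [← mul_pow]
    apply pow_le_pow_left₀ (by positivity)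
    nlinarith
  have h3 : (0 : ℝ) ≤ S.card + X / Real.log X ^ B := by positivity
  calc C' * (S.card + X / Real.log X ^ B) * (1 + Real.log (Real.log X) + 7 * η * Real.log X) ^ k
      ≤ |C'| * (S.card + X / Real.log X ^ B) *
        (1 + Real.log (Real.log X) + 7 * η * Real.log X) ^ k := by
        gcongr
        exact le_abs_self _
    _ ≤ |C'| * (S.card + X / Real.log X ^ B) *
        (7 ^ k * (1 + Real.log (Real.log X) + η * Real.log X) ^ k) := by gcongr
    _ = _ := by ring

end Pool.Agent.L5helper6.CZ
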