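import Pool.Agent.Y180.QT12d1

/-!
# Zeros near a point force a large mean value (after `Pool.Agent.Y180.QT12d1`)
-/

set_option autoImplicit false

namespace Pool.Agent.L5helper6.CZ

open Complex MeasureTheory Filter Topology
open scoped ENNReal
open Pool.Agent.Y180.QT12d1

/-- the product of the linear factors -/
noncomputable def PP (s : Finset ℂ) (m : ℂ → ℕ) (z : ℂ) : ℂ := ∏ ρ ∈ s, (z - ρ) ^ m ρ

/-- division by several zeros -/
theorem exists_quot_many {U : Set ℂ} (hU : IsOpen U) (m : ℂ → ℕ) (s : Finset ℂ) :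
    ∀ {L : ℂ → ℂ}, DifferentiableOn ℂ L U → (∀ ρ ∈ s, ρ ∈ U ∧ (m ρ : ℕ∞) ≤ analyticOrderAt L ρ) →
    ∃ g : ℂ → ℂ, DifferentiableOn ℂ g U ∧ ∀ z ∈ U, L z = PP s m z * g z := by
  classical
  induction s using Finset.induction_on with
  | empty =>
    intro L hL _
    exact ⟨L, hL, fun z _ => by simp [PP]⟩
  | insert a s ha ih =>
    intro L hL h
    obtain ⟨haU, hao⟩ := h a (Finset.mem_insert_self a s)
    obtain ⟨g1, hg1, hg2⟩ := exists_quot hU haU hL hao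
    obtain ⟨g, hg3, hg4⟩ := ih hg1 (fun ρ hρ => by
      obtain ⟨hρU, hρo⟩ := h ρ (Finset.mem_insert_of_mem hρ)
      refine ⟨hρU, ?_⟩
      have hne : ρ ≠ a := fun e => ha (e ▸ hρ)
      have e1 : L =ᶠ[𝓝 ρ] (fun z => (z - a) ^ m a) * g1 := by
        filter_upwards [hU.mem_nhds hρU] with z hz
        exact hg2 z hz
      have a1 : AnalyticAt ℂ (fun z : ℂ => (z - a) ^ m a) ρ := by fun_prop
      have a2 : AnalyticAt ℂ g1 ρ := hg1.analyticAt (hU.mem_nhds hρU)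
      have e2 : analyticOrderAt L ρ = analyticOrderAt ((fun z => (z - a) ^ m a) * g1) ρ :=
        analyticOrderAt_congr e1
      have e3 : analyticOrderAt (fun z : ℂ => (z - a) ^ m a) ρ = 0 := by
        rw [a1.analyticOrderAt_eq_zero]
        exact pow_ne_zero _ (sub_ne_zero.2 hne)
      rw [e2, analyticOrderAt_mul a1 a2, e3, zero_add] at hρo
      exact hρo)
    refine ⟨g, hg3, fun z hz => ?_⟩
    rw [hg2 z hz, hg4 z hz]
    unfold PP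
    rw [Finset.prod_insert ha]
    ring

/-- step A -/
theorem stepA {L M P g : ℂ → ℂ} {δ W a b : ℝ} (hδ : 0 < δ) (hW : 0 ≤ W) (ha : 0 < a) (hab : W * b ≤ a)
    (hg : DifferentiableOn ℂ g (Metric.ball (1 / 2) (20 * δ)))
    (hM : DifferentiableOn ℂ M (Metric.ball (1 / 2) (20 * δ)))
    (hL : ∀ z ∈ Metric.ball (1 / 2 : ℂ) (20 * δ), L z = P z * g z)
    (hPa : ∀ z : ℂ, 4 * δ ≤ ‖z - 1 / 2‖ → a ≤ ‖P z‖) (hPb : ‖P (1 / 2 + δ)‖ ≤ b)
    {R : ℝ} (hR1 : 5 * δ ≤ R) (hR2 : R ≤ 8 * δ) :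
    ENNReal.ofReal (2 * Real.pi) * ENNReal.ofReal (W * ‖L (1 / 2 + δ) * M (1 / 2 + δ)‖) ≤
      ∫⁻ θ in Set.Ioo (-Real.pi) Real.pi, ‖L (1 / 2 + δ + ((R * Real.cos θ : ℝ) +
        (R * Real.sin θ : ℝ) * I))‖ₑ * ‖M (1 / 2 + δ + ((R * Real.cos θ : ℝ) +
        (R * Real.sin θ : ℝ) * I))‖ₑ := by
  have hR0 : 0 < R := by linarith
  have hsub : Metric.closedBall (1 / 2 + δ : ℂ) R ⊆ Metric.ball (1 / 2 : ℂ) (20 * δ) := by
    intro z hz
    rw [Metric.mem_closedBall, dist_eq_norm] at hz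
    rw [Metric.mem_ball, dist_eq_norm]
    calc ‖z - 1 / 2‖ = ‖(z - (1 / 2 + δ)) + δ‖ := by congr 1; ring
      _ ≤ ‖z - (1 / 2 + δ)‖ + ‖(δ : ℂ)‖ := norm_add_le _ _
      _ ≤ R + δ := by
        rw [Complex.norm_real, Real.norm_eq_abs, abs_of_pos hδ]
        linarith
      _ < 20 * δ := by linarith
  have h1 := circle (H := fun z => g z * M z) hR0 ((hg.mul hM).mono hsub)
  have hc : ∀ θ : ℝ, circleMap (1 / 2 + δ : ℂ) R θ = 1 / 2 + δ + ((R * Real.cos θ : ℝ) +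
      (R * Real.sin θ : ℝ) * I) := by
    intro θ
    unfold circleMap
    rw [Complex.exp_mul_I]
    push_cast
    ring
  have h2 : ∀ θ : ℝ, ENNReal.ofReal a *
      ‖g (circleMap (1 / 2 + δ : ℂ) R θ) * M (circleMap (1 / 2 + δ : ℂ) R θ)‖ₑ ≤
      ‖L (1 / 2 + δ + ((R * Real.cos θ : ℝ) + (R * Real.sin θ : ℝ) * I))‖ₑ *
        ‖M (1 / 2 + δ + ((R * Real.cos θ : ℝ) + (R * Real.sin θ : ℝ) * I))‖ₑ := by
    intro θ
    rw [← hc θ]
    set z := circleMap (1 / 2 + δ : ℂ) R θ with hz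
    have hzs : z ∈ Metric.closedBall (1 / 2 + δ : ℂ) R :=
      Metric.sphere_subset_closedBall (circleMap_mem_sphere _ hR0.le θ)
    have hzd : ‖z - (1 / 2 + δ)‖ = R := by
      have := circleMap_mem_sphere (1 / 2 + δ : ℂ) hR0.le θ
      rwa [mem_sphere_iff_norm] at this
    have hza : 4 * δ ≤ ‖z - 1 / 2‖ := by
      have h5 : ‖z - (1 / 2 + δ)‖ ≤ ‖z - 1 / 2‖ + ‖(δ : ℂ)‖ := by
        have : z - (1 / 2 + δ) = (z - 1 / 2) - δ := by ring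
        rw [this]
        exact norm_sub_le _ _
      rw [hzd, Complex.norm_real, Real.norm_eq_abs, abs_of_pos hδ] at h5
      linarith
    rw [hL z (hsub hzs), enorm_mul, enorm_mul, ← mul_assoc]
    gcongr
    rw [← ofReal_norm]
    exact ENNReal.ofReal_le_ofReal (hPa z hza)
  have h3 : ENNReal.ofReal (W * ‖L (1 / 2 + δ) * M (1 / 2 + δ)‖) ≤
      ENNReal.ofReal a * ‖g (1 / 2 + δ) * M (1 / 2 + δ)‖ₑ := by
    have h6 : L (1 / 2 + δ) = P (1 / 2 + δ) * g (1 / 2 + δ) :=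
      hL _ (hsub (Metric.mem_closedBall_self hR0.le))
    rw [h6, ← ofReal_norm, ← ENNReal.ofReal_mul ha.le]
    apply ENNReal.ofReal_le_ofReal
    rw [mul_assoc (P _), norm_mul (P _), ← mul_assoc]
    apply mul_le_mul_of_nonneg_right _ (norm_nonneg _)
    exact (mul_le_mul_of_nonneg_left hPb hW).trans hab
  calc ENNReal.ofReal (2 * Real.pi) * ENNReal.ofReal (W * ‖L (1 / 2 + δ) * M (1 / 2 + δ)‖)
      ≤ ENNReal.ofReal (2 * Real.pi) * (ENNReal.ofReal a * ‖g (1 / 2 + δ) * M (1 / 2 + δ)‖ₑ) := by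
        gcongr
    _ = ENNReal.ofReal a * (ENNReal.ofReal (2 * Real.pi) * ‖g (1 / 2 + δ) * M (1 / 2 + δ)‖ₑ) := by
        ring
    _ ≤ ENNReal.ofReal a * ∫⁻ θ in Set.Ioo (-Real.pi) Real.pi,
        ‖g (circleMap (1 / 2 + δ : ℂ) R θ) * M (circleMap (1 / 2 + δ : ℂ) R θ)‖ₑ := by gcongr
    _ = ∫⁻ θ in Set.Ioo (-Real.pi) Real.pi, ENNReal.ofReal a *
        ‖g (circleMap (1 / 2 + δ : ℂ) R θ) * M (circleMap (1 / 2 + δ : ℂ) R θ)‖ₑ := by
        rw [lintegral_const_mul' _ _ ENNReal.ofReal_ne_top]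
    _ ≤ _ := lintegral_mono fun θ => h2 θ

/-- step B -/
theorem stepB {L M P g : ℂ → ℂ} {δ W a b : ℝ} (hδ : 0 < δ) (hW : 0 ≤ W) (ha : 0 < a) (hab : W * b ≤ a)
    (hLd : DifferentiableOn ℂ L (Metric.ball (1 / 2) (20 * δ)))
    (hg : DifferentiableOn ℂ g (Metric.ball (1 / 2) (20 * δ)))
    (hM : DifferentiableOn ℂ M (Metric.ball (1 / 2) (20 * δ)))
    (hL : ∀ z ∈ Metric.ball (1 / 2 : ℂ) (20 * δ), L z = P z * g z)
    (hPa : ∀ z : ℂ, 4 * δ ≤ ‖z - 1 / 2‖ → a ≤ ‖P z‖) (hPb : ‖P (1 / 2 + δ)‖ ≤ b) :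
    ENNReal.ofReal (3 * δ * (5 * δ)) * (ENNReal.ofReal (2 * Real.pi) *
      ENNReal.ofReal (W * ‖L (1 / 2 + δ) * M (1 / 2 + δ)‖)) ≤
      ∫⁻ p in Sq δ, ‖L (pt δ p)‖ₑ * ‖M (pt δ p)‖ₑ := by
  set Φ : ℝ × ℝ → ℝ≥0∞ := (Sq δ).indicator fun p => ‖L (pt δ p)‖ₑ * ‖M (pt δ p)‖ₑ with hΦ
  rw [← lintegral_indicator (measurableSet_Sq δ), ← hΦ, ← lintegral_comp_polarCoord_symm]
  set A : Set (ℝ × ℝ) := Set.Icc (5 * δ) (8 * δ) ×ˢ Set.Ioo (-Real.pi) Real.pi with hA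
  have hAt : A ⊆ polarCoord.target := by
    rintro ⟨R, θ⟩ ⟨hR, hθ⟩
    rw [polarCoord_target]
    refine ⟨?_, hθ⟩
    have h1 : 5 * δ ≤ R := hR.1
    exact lt_of_lt_of_le (by positivity) h1
  have hsq : ∀ R θ : ℝ, 5 * δ ≤ R → R ≤ 8 * δ → (R * Real.cos θ, R * Real.sin θ) ∈ Sq δ := by
    intro R θ h1 h2
    have hR0 : 0 ≤ R := by linarith
    refine ⟨abs_le.1 ?_, abs_le.1 ?_⟩
    · dsimp only
      rw [abs_mul, abs_of_nonneg hR0]
      exact (mul_le_of_le_one_right hR0 (Real.abs_cos_le_one θ)).trans h2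
    · dsimp only
      rw [abs_mul, abs_of_nonneg hR0]
      exact (mul_le_of_le_one_right hR0 (Real.abs_sin_le_one θ)).trans h2
  have hAm : MeasurableSet A := measurableSet_Icc.prod measurableSet_Ioo
  have h1 : ∫⁻ p in A, ENNReal.ofReal p.1 * (‖L (pt δ (p.1 * Real.cos p.2, p.1 * Real.sin p.2))‖ₑ *
      ‖M (pt δ (p.1 * Real.cos p.2, p.1 * Real.sin p.2))‖ₑ) ≤
      ∫⁻ p in polarCoord.target, ENNReal.ofReal p.1 • Φ (polarCoord.symm p) := by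
    refine le_trans (le_of_eq ?_) (lintegral_mono_set hAt)
    refine setLIntegral_congr_fun hAm ?_
    rintro ⟨R, θ⟩ ⟨hR, hθ⟩
    dsimp only
    rw [polarCoord_symm_apply, hΦ, Set.indicator_of_mem (hsq R θ hR.1 hR.2), smul_eq_mul]
  refine le_trans ?_ h1
  have hcont : ContinuousOn (fun p : ℝ × ℝ => ((p.1 * Real.cos p.2, p.1 * Real.sin p.2) : ℝ × ℝ)) A :=
    (by fun_prop : Continuous (fun p : ℝ × ℝ =>
      ((p.1 * Real.cos p.2, p.1 * Real.sin p.2) : ℝ × ℝ))).continuousOn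
  have hmaps : Set.MapsTo (fun p : ℝ × ℝ => ((p.1 * Real.cos p.2, p.1 * Real.sin p.2) : ℝ × ℝ)) A
      (Sq δ) := by
    rintro ⟨R, θ⟩ ⟨hR, hθ⟩
    exact hsq R θ hR.1 hR.2
  have hmeas : AEMeasurable (fun p : ℝ × ℝ => ENNReal.ofReal p.1 *
      (‖L (pt δ (p.1 * Real.cos p.2, p.1 * Real.sin p.2))‖ₑ *
      ‖M (pt δ (p.1 * Real.cos p.2, p.1 * Real.sin p.2))‖ₑ))
      ((volume.restrict (Set.Icc (5 * δ) (8 * δ))).prod
        (volume.restrict (Set.Ioo (-Real.pi) Real.pi))) := by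
    rw [Measure.prod_restrict]
    have hl := ((contOn hδ hLd).comp hcont hmaps).aestronglyMeasurable hAm (μ := volume)
    have hm := ((contOn hδ hM).comp hcont hmaps).aestronglyMeasurable hAm (μ := volume)
    exact (measurable_fst.ennreal_ofReal.aemeasurable).mul (hl.enorm.mul hm.enorm)
  rw [Measure.volume_eq_prod, ← Measure.prod_restrict, lintegral_prod _ hmeas]
  calc ENNReal.ofReal (3 * δ * (5 * δ)) * (ENNReal.ofReal (2 * Real.pi) *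
        ENNReal.ofReal (W * ‖L (1 / 2 + δ) * M (1 / 2 + δ)‖))
      = ∫⁻ _ in Set.Icc (5 * δ) (8 * δ), ENNReal.ofReal (5 * δ) * (ENNReal.ofReal (2 * Real.pi) *
        ENNReal.ofReal (W * ‖L (1 / 2 + δ) * M (1 / 2 + δ)‖)) := by
        rw [setLIntegral_const, Real.volume_Icc, ENNReal.ofReal_mul (by positivity)]
        rw [show 8 * δ - 5 * δ = 3 * δ by ring]
        ring
    _ ≤ _ := by
        refine setLIntegral_mono' measurableSet_Icc fun R hR => ?_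
        dsimp only
        have hA2 := stepA hδ hW ha hab hg hM hL hPa hPb hR.1 hR.2
        rw [lintegral_const_mul' _ _ ENNReal.ofReal_ne_top]
        refine mul_le_mul' (ENNReal.ofReal_le_ofReal hR.1) ?_
        exact hA2

/-- lower bound for the product -/
theorem PP_ge {s : Finset ℂ} {m : ℂ → ℕ} {c : ℂ} {η x : ℝ} (hs : ∀ ρ ∈ s, ‖ρ - c‖ ≤ η)
    (hx : 0 ≤ x) {z : ℂ} (hz : x + η ≤ ‖z - c‖) : x ^ (∑ ρ ∈ s, m ρ) ≤ ‖PP s m z‖ := by
  unfold PP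
  rw [norm_prod, ← Finset.prod_pow_eq_pow_sum]
  refine Finset.prod_le_prod (fun ρ _ => by positivity) fun ρ hρ => ?_
  rw [norm_pow]
  apply pow_le_pow_left₀ hx
  have h1 : ‖z - c‖ ≤ ‖z - ρ‖ + ‖ρ - c‖ := by
    have : z - c = (z - ρ) + (ρ - c) := by ring
    rw [this]
    exact norm_add_le _ _
  have := hs ρ hρ
  linarith

/-- upper bound for the product -/
theorem PP_le {s : Finset ℂ} {m : ℂ → ℕ} {c : ℂ} {η x : ℝ} (hs : ∀ ρ ∈ s, ‖ρ - c‖ ≤ η)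
    {z : ℂ} (hz : ‖z - c‖ ≤ x) : ‖PP s m z‖ ≤ (x + η) ^ (∑ ρ ∈ s, m ρ) := by
  unfold PP
  rw [norm_prod, ← Finset.prod_pow_eq_pow_sum]
  refine Finset.prod_le_prod (fun ρ _ => norm_nonneg _) fun ρ hρ => ?_
  rw [norm_pow]
  apply pow_le_pow_left₀ (norm_nonneg _)
  have h1 : ‖z - ρ‖ ≤ ‖z - c‖ + ‖ρ - c‖ := by
    have : z - ρ = (z - c) - (ρ - c) := by ring
    rw [this]
    exact norm_sub_le _ _
  have := hs ρ hρ
  linarith

/-- zeros of total multiplicity `r` in a disc around `1/2` -/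
theorem stepC {L M : ℂ → ℂ} {δ η : ℝ} {s : Finset ℂ} {m : ℂ → ℕ} (hδ : 0 < δ) (hη : η ≤ δ / 25)
    (hLd : DifferentiableOn ℂ L (Metric.ball (1 / 2) (20 * δ)))
    (hM : DifferentiableOn ℂ M (Metric.ball (1 / 2) (20 * δ)))
    (hs : ∀ ρ ∈ s, ‖ρ - 1 / 2‖ ≤ η ∧ (m ρ : ℕ∞) ≤ analyticOrderAt L ρ) :
    ENNReal.ofReal (3 * δ * (5 * δ)) * (ENNReal.ofReal (2 * Real.pi) *
      ENNReal.ofReal ((19 / 5) ^ (∑ ρ ∈ s, m ρ) * ‖L (1 / 2 + δ) * M (1 / 2 + δ)‖)) ≤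
      ∫⁻ p in Sq δ, ‖L (pt δ p)‖ₑ * ‖M (pt δ p)‖ₑ := by
  obtain ⟨g, hg1, hg2⟩ := exists_quot_many Metric.isOpen_ball m s hLd (fun ρ hρ => by
    refine ⟨?_, (hs ρ hρ).2⟩
    rw [Metric.mem_ball, dist_eq_norm]
    have := (hs ρ hρ).1
    linarith)
  refine stepB (P := PP s m) (g := g) (a := (99 / 25 * δ) ^ (∑ ρ ∈ s, m ρ))
    (b := (26 / 25 * δ) ^ (∑ ρ ∈ s, m ρ)) hδ (by positivity) (by positivity) ?_ hLd hg1 hM hg2 ?_ ?_
  · rw [← mul_pow]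
    apply pow_le_pow_left₀ (by positivity)
    nlinarith
  · intro z hz
    refine PP_ge (c := 1 / 2) (η := δ / 25) (fun ρ hρ => (hs ρ hρ).1.trans hη) (by positivity) ?_
    linarith
  · have h := PP_le (m := m) (c := 1 / 2) (η := δ / 25) (x := δ) (z := 1 / 2 + δ)
      (fun ρ hρ => (hs ρ hρ).1.trans hη) (by
        rw [show (1 / 2 + δ - 1 / 2 : ℂ) = δ by ring, Complex.norm_real, Real.norm_eq_abs,
          abs_of_pos hδ])
    rwa [show δ + δ / 25 = 26 / 25 * δ by ring] at h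

end Pool.Agent.L5helper6.CZ
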